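import Pool.Agent.ZGO.StmtsB

set_option autoImplicit false

namespace Pool.Agent.ZGO.H60

open Pool.Agent.ZGO

variable {X : Type} [AddCommGroup X]

theorem it_add (θ : X →+ X) (n : ℕ) (x y : X) :
    (⇑θ)^[n] (x + y) = (⇑θ)^[n] x + (⇑θ)^[n] y := by
  induction n with
  | zero => rfl
  | succ n ih => rw [Function.iterate_succ_apply', Function.iterate_succ_apply',
      Function.iterate_succ_apply', ih, map_add]

theorem it_zero (θ : X →+ X) (n : ℕ) : (⇑θ)^[n] 0 = 0 := by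
  induction n with
  | zero => rfl
  | succ n ih => rw [Function.iterate_succ_apply', ih, map_zero]

theorem it_neg (θ : X →+ X) (n : ℕ) (x : X) : (⇑θ)^[n] (-x) = -(⇑θ)^[n] x := by
  induction n with
  | zero => rfl
  | succ n ih => rw [Function.iterate_succ_apply', Function.iterate_succ_apply', ih, map_neg]

theorem it_sub (θ : X →+ X) (n : ℕ) (x y : X) :
    (⇑θ)^[n] (x - y) = (⇑θ)^[n] x - (⇑θ)^[n] y := by
  rw [sub_eq_add_neg, it_add, it_neg, ← sub_eq_add_neg]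

theorem it_le (θ : X →+ X) {m n : ℕ} (h : m ≤ n) (x : X) (hx : (⇑θ)^[m] x = 0) :
    (⇑θ)^[n] x = 0 := by
  obtain ⟨k, rfl⟩ := Nat.exists_eq_add_of_le h
  rw [Nat.add_comm, Function.iterate_add_apply, hx, it_zero]

/-- the image of a subgroup under an iterate -/
def img (θ : X →+ X) (a : ℕ) (H : AddSubgroup X) : AddSubgroup X where
  carrier := {y | ∃ x ∈ H, (⇑θ)^[a] x = y}
  zero_mem' := ⟨0, H.zero_mem, it_zero θ a⟩
  add_mem' := by
    rintro _ _ ⟨x, hx, rfl⟩ ⟨y, hy, rfl⟩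
    exact ⟨x + y, H.add_mem hx hy, it_add θ a x y⟩
  neg_mem' := by
    rintro _ ⟨x, hx, rfl⟩
    exact ⟨-x, H.neg_mem hx, it_neg θ a x⟩

theorem rta (hJFI : JfiStmt) (_hJTI : JtiStmt) (hFNK : FnkStmt) : RtaStmt := by
  intro P _ _ p ψ X _ θ ρ hU
  obtain ⟨_, j2, j3, j4, j5, j6, j7⟩ := hJFI P p ψ X θ ρ hU
  obtain ⟨_, f2, _⟩ := hFNK P ψ X θ ρ hU.sim.shf
  have hsucc : ∀ n, (Jo ρ)^[n + 1] ⊥ = Jo ρ ((Jo ρ)^[n] ⊥) := fun n =>
    Function.iterate_succ_apply' _ _ _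
  have fin : ∀ n, (((Jo ρ)^[n] ⊥ : AddSubgroup X) : Set X).Finite := by
    intro n
    induction n with
    | zero => simp
    | succ n ih => rw [hsucc]; exact j2 _ ih
  have stb : ∀ n, ∀ g, ∀ y ∈ (Jo ρ)^[n] ⊥, ρ g y ∈ (Jo ρ)^[n] ⊥ := by
    intro n
    induction n with
    | zero =>
      intro g y hy
      have hy0 : y = 0 := by simpa using hy
      subst hy0
      simp
    | succ n ih => rw [hsucc]; exact j4 _ ih
  have tst : ∀ n, ∀ y ∈ (Jo ρ)^[n] ⊥, θ y ∈ (Jo ρ)^[n] ⊥ := by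
    intro n
    induction n with
    | zero =>
      intro y hy
      have hy0 : y = 0 := by simpa using hy
      subst hy0
      simp
    | succ n ih => rw [hsucc]; exact j7 _ ih
  have knl : ∀ n, ∀ x, (⇑θ)^[n] x = 0 → x ∈ (Jo ρ)^[n] ⊥ := by
    intro n
    induction n with
    | zero =>
      intro x hx
      have hx0 : x = 0 := hx
      subst hx0
      simp
    | succ n ih => rw [hsucc]; exact j5 _ n ih
  have key : ∀ n, ∃ a, n ≤ a ∧ (∀ x, (⇑θ)^[a] x = 0 → x ∈ (Jo ρ)^[n] ⊥) ∧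
      ∃ x, (⇑θ)^[a + 1] x = 0 ∧ x ∉ (Jo ρ)^[n] ⊥ := by
    intro n
    classical
    have hex : ∃ a, ∃ x, (⇑θ)^[a] x = 0 ∧ x ∉ (Jo ρ)^[n] ⊥ := j6 _ (fin n)
    have hb := Nat.find_spec hex
    have hlt : n < Nat.find hex := by
      by_contra hle
      obtain ⟨x, hx, hxn⟩ := hb
      exact hxn (knl n x (it_le θ (not_lt.1 hle) x hx))
    refine ⟨Nat.find hex - 1, by omega, ?_, ?_⟩
    · intro x hx
      by_contra hxn
      exact Nat.find_min hex (m := Nat.find hex - 1) (by omega) ⟨x, hx, hxn⟩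
    · rw [Nat.sub_add_cancel (by omega)]
      exact hb
  choose a ha1 ha2 ha3 using key
  have hiff : ∀ n x, x ∈ (Jo ρ)^[n] ⊥ ↔ (⇑θ)^[a n] x ∈ img θ (a n) ((Jo ρ)^[n] ⊥) := by
    intro n x
    constructor
    · intro hx
      exact ⟨x, hx, rfl⟩
    · rintro ⟨x', hx', hxx⟩
      have h0 : (⇑θ)^[a n] (x - x') = 0 := by rw [it_sub, hxx, sub_self]
      have h1 := ((Jo ρ)^[n] ⊥).add_mem (ha2 n _ h0) hx'
      rwa [sub_add_cancel] at h1
  refine ⟨a, fun n => img θ (a n) ((Jo ρ)^[n] ⊥), ha1, hiff, ?_, ?_, ?_⟩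
  · rintro n _ ⟨x, hx, rfl⟩
    refine ⟨θ x, tst n x hx, ?_⟩
    rw [← Function.iterate_succ_apply, Function.iterate_succ_apply']
  · rintro n g _ ⟨x, hx, rfl⟩
    exact ⟨ρ ((⇑ψ)^[a n] g) x, stb n _ x hx, f2 _ _ _⟩
  · intro n
    obtain ⟨x, hx, hxn⟩ := ha3 n
    refine ⟨(⇑θ)^[a n] x, ?_, ?_⟩
    · rw [Function.iterate_succ_apply'] at hx; exact hx
    · intro h
      exact hxn ((hiff n x).2 h)

end Pool.Agent.ZGO.H60
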