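import Pool.Agent.Helper60_ZGO.RTA

set_option autoImplicit false

namespace Pool.Agent.ZGO.H60

open Pool.Agent.ZGO Filter

theorem rtb (hFNK : FnkStmt) : RtbStmt := by
  intro P _ ψ X _ θ ρ hS Q hQθ hQρ hQn
  obtain ⟨f1, _, _⟩ := hFNK P ψ X θ ρ hS.shf
  let Y : AddSubgroup X :=
    { carrier := {x | ∀ᶠ n in (hyperfilter ℕ : Filter ℕ), x ∈ Q n}
      zero_mem' := Eventually.of_forall fun n => (Q n).zero_mem
      add_mem' := by
        intro x y hx hy
        have hx' : ∀ᶠ n in (hyperfilter ℕ : Filter ℕ), x ∈ Q n := hx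
        have hy' : ∀ᶠ n in (hyperfilter ℕ : Filter ℕ), y ∈ Q n := hy
        exact (hx'.and hy').mono fun n h => (Q n).add_mem h.1 h.2
      neg_mem' := by
        intro x hx
        have hx' : ∀ᶠ n in (hyperfilter ℕ : Filter ℕ), x ∈ Q n := hx
        exact hx'.mono fun n h => (Q n).neg_mem h }
  have hY : ∀ x, x ∈ Y ↔ ∀ᶠ n in (hyperfilter ℕ : Filter ℕ), x ∈ Q n := fun x => Iff.rfl
  have hYf : (Y : Set X).Finite := by
    rcases hS.smp ⊤ inferInstance (fun g _ => Subgroup.mem_top _) Y
      (fun y hy => ((hY y).1 hy).mono fun n h => hQθ n y h)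
      (fun g _ y hy => ((hY y).1 hy).mono fun n h => hQρ n g y h) with h | h
    · exfalso
      have h1 : ∀ᶠ n in (hyperfilter ℕ : Filter ℕ), ∀ x ∈ {x | θ x = 0}, x ∈ Q n := by
        rw [eventually_all_finite hS.shf.fin]
        intro x _
        exact (hY x).1 (h ▸ AddSubgroup.mem_top x)
      obtain ⟨n, hn⟩ := h1.exists
      obtain ⟨x, hx, hxn⟩ := hQn n
      exact hxn (hn x hx)
    · exact h
  -- a bound for `Y`
  obtain ⟨b, hb⟩ : ∃ b, ∀ y ∈ Y, (⇑θ)^[b] y = 0 := by
    choose e he using hS.shf.nil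
    refine ⟨hYf.toFinset.sup e, fun y hy => ?_⟩
    exact it_le θ (Finset.le_sup (f := e) (hYf.mem_toFinset.2 hy)) y (he y)
  have hev : ∀ᶠ n in (hyperfilter ℕ : Filter ℕ), ∀ x ∈ {x | (⇑θ)^[b + 1] x = 0},
      x ∈ Q n → x ∈ Y := by
    rw [eventually_all_finite (f1 (b + 1))]
    intro x _
    by_cases hx : x ∈ Y
    · exact Eventually.of_forall fun n _ => hx
    · have h := hx
      rw [hY, ← Ultrafilter.eventually_not] at h
      exact h.mono fun n hn hq => absurd hq hn
  refine ⟨b, ?_⟩
  intro hfin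
  apply notMem_hyperfilter_of_finite hfin
  refine Filter.mem_of_superset hev ?_
  intro n hn
  have hind : ∀ N, ∀ x ∈ Q n, (⇑θ)^[N] x = 0 → (⇑θ)^[b] x = 0 := by
    intro N
    induction N with
    | zero =>
      intro x _ hx
      exact it_le θ (Nat.zero_le b) x hx
    | succ N ih =>
      intro x hxQ hx
      rcases Nat.lt_or_ge N b with hNb | hNb
      · exact it_le θ (by omega) x hx
      · apply ih x hxQ
        have hit : ∀ k, (⇑θ)^[k] x ∈ Q n := by
          intro k
          induction k with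
          | zero => exact hxQ
          | succ k ihk => rw [Function.iterate_succ_apply']; exact hQθ n _ ihk
        have h1 : (⇑θ)^[b + 1] ((⇑θ)^[N - b] x) = 0 := by
          rw [← Function.iterate_add_apply]
          have : b + 1 + (N - b) = N + 1 := by omega
          rw [this]; exact hx
        have h2 := hb _ (hn _ h1 (hit (N - b)))
        rw [← Function.iterate_add_apply] at h2
        have : b + (N - b) = N := by omega
        rwa [this] at h2
  intro x hx
  obtain ⟨N, hN⟩ := hS.shf.nil x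
  exact hind N x hx hN

end Pool.Agent.ZGO.H60
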